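import Pool.Agent.H71.AL.Targets

set_option autoImplicit false

open Set

open Pool.Agent.AL

namespace Pool.Agent.H40.ALV

section

variable {ι L L1 : Type} {lt : L → L → Prop} {lt1 : L1 → L1 → Prop} (g : L ≃ L1)
  (hlt : ∀ x y, lt1 (g x) (g y) ↔ lt x y)

include hlt

theorem inc_iff {F : L → L} {F1 : L1 → L1} (hF : ∀ x, F1 (g x) = g (F x)) :
    Inc lt1 F1 ↔ Inc lt F := by
  simp only [Inc, g.surjective.forall, hlt, hF]

theorem dec_iff {F : L → L} {F1 : L1 → L1} (hF : ∀ x, F1 (g x) = g (F x)) :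
    Dec lt1 F1 ↔ Dec lt F := by
  simp only [Dec, g.surjective.forall, hlt, hF]

omit hlt in
theorem it_eq {F : L → L} {F1 : L1 → L1} (hF : ∀ x, F1 (g x) = g (F x)) (n : ℕ) :
    ∀ x, F1^[n] (g x) = g (F^[n] x) := by
  induction n with
  | zero => intro x; rfl
  | succ n ih =>
    intro x
    rw [Function.iterate_succ_apply, Function.iterate_succ_apply, hF, ih]

theorem lm_iff {F : L → L} {F1 : L1 → L1} (hF : ∀ x, F1 (g x) = g (F x)) (y x : L) :
    Lm lt1 F1 (g y) (g x) ↔ Lm lt F y x := by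
  simp only [Lm, g.surjective.forall, hlt, it_eq g hF]

variable {f : ι → L → L} {f1 : ι → L1 → L1} (hf : ∀ i x, f1 i (g x) = g (f i x))

include hf

theorem gd_iff (p q : L) : Gd lt1 f1 (g p) (g q) ↔ Gd lt f p q := by
  simp only [Gd, g.surjective.forall, hlt, hf, g.injective.eq_iff]

theorem ws_iff (x : L) : Ws lt1 f1 (g x) ↔ Ws lt f x := by
  simp only [Ws, g.surjective.exists, hlt, gd_iff g hlt hf]

theorem sr_iff (y z : L) : Sr lt1 f1 (g y) (g z) ↔ Sr lt f y z := by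
  simp only [Sr, g.surjective.exists, hlt, gd_iff g hlt hf]

theorem e1_iff (x : L) : E1 lt1 f1 (g x) ↔ E1 lt f x := by
  simp only [E1, g.surjective.exists, inc_iff g hlt (hf _), dec_iff g hlt (hf _),
    lm_iff g hlt (hf _), hf, g.injective.eq_iff]

theorem e2_iff (x : L) : E2 lt1 f1 (g x) ↔ E2 lt f x := by
  simp only [E2, g.surjective.exists, g.surjective.forall, hlt, ws_iff g hlt hf, sr_iff g hlt hf]

theorem es_iff (x : L) : Es lt1 f1 (g x) ↔ Es lt f x := by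
  rw [Es, Es, e1_iff g hlt hf, e2_iff g hlt hf]

theorem cn_of (h : Cn lt f) : Cn lt1 f1 := by
  refine ⟨?_, ?_, ?_, ?_, ?_, ?_, ?_⟩
  · simp only [g.surjective.exists, g.surjective.forall, hlt, hf, inc_iff g hlt (hf _),
      lm_iff g hlt (hf _), it_eq g (hf _)]
    exact h.k1
  · simp only [g.surjective.exists, g.surjective.forall, hlt, hf, inc_iff g hlt (hf _),
      lm_iff g hlt (hf _), it_eq g (hf _)]
    exact h.k1'
  · simp only [g.surjective.exists, hf, dec_iff g hlt (hf _), g.injective.eq_iff]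
    exact h.k1a
  · simp only [g.surjective.exists, g.surjective.forall, hlt, ws_iff g hlt hf, sr_iff g hlt hf]
    exact h.k2
  · simp only [g.surjective.exists, g.surjective.forall, hlt, ws_iff g hlt hf, sr_iff g hlt hf]
    exact h.k2'
  · simp only [g.surjective.exists, g.surjective.forall, hlt, es_iff g hlt hf]
    exact h.k3
  · simp only [g.surjective.exists, g.surjective.forall, hlt, es_iff g hlt hf,
      ws_iff g hlt hf, hf, g.injective.eq_iff]
    exact h.k4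

end

theorem wd_eq (f f1 : ℕ → ℕ → ℕ) (g : Equiv.Perm ℕ) (h : ∀ k m, f1 k (g m) = g (f k m)) :
    ∀ (w : List ℕ) (m : ℕ), wd f1 w (g m) = g (wd f w m)
  | [], m => rfl
  | k :: w, m => by
    show f1 k (wd f1 w (g m)) = g (f k (wd f w m))
    rw [wd_eq f f1 g h w m, h]

theorem pf_CIV : T_CIV := by
  rintro y z ⟨g, hg1, hg2⟩ ⟨hD, hC⟩
  have hlt : ∀ m n, lt z (g m) (g n) ↔ lt y m n := by
    intro m n
    unfold lt
    rw [hg1]
  refine ⟨⟨⟨?_, ?_, ?_⟩, ?_, ?_, ?_, ?_, ?_⟩,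
    cn_of (L := ℕ) (L1 := ℕ) g hlt (wd_eq y.2 z.2 g hg2) hC⟩
  · intro a
    obtain ⟨a, rfl⟩ := g.surjective a
    rw [hlt]
    exact hD.ln.1 a
  · intro a b
    obtain ⟨a, rfl⟩ := g.surjective a
    obtain ⟨b, rfl⟩ := g.surjective b
    rw [hlt, hlt, g.injective.ne_iff]
    exact hD.ln.2.1 a b
  · intro a b c
    obtain ⟨a, rfl⟩ := g.surjective a
    obtain ⟨b, rfl⟩ := g.surjective b
    obtain ⟨c, rfl⟩ := g.surjective c
    rw [hlt, hlt, hlt]
    exact hD.ln.2.2 a b c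
  · intro a b
    obtain ⟨a, rfl⟩ := g.surjective a
    obtain ⟨b, rfl⟩ := g.surjective b
    rw [hlt]
    intro h
    obtain ⟨c, h1, h2⟩ := hD.den a b h
    exact ⟨g c, (hlt _ _).2 h1, (hlt _ _).2 h2⟩
  · intro a
    obtain ⟨a, rfl⟩ := g.surjective a
    obtain ⟨b, hb⟩ := hD.top a
    exact ⟨g b, (hlt _ _).2 hb⟩
  · intro a
    obtain ⟨a, rfl⟩ := g.surjective a
    obtain ⟨b, hb⟩ := hD.bot a
    exact ⟨g b, (hlt _ _).2 hb⟩
  · intro k m
    obtain ⟨m, rfl⟩ := g.surjective m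
    rw [hg2, hg2, hg2, hg2, (hD.inv k m).1, (hD.inv k m).2]
    exact ⟨rfl, rfl⟩
  · intro k
    rw [inc_iff (L := ℕ) (L1 := ℕ) g hlt (hg2 (2 * k)), dec_iff (L := ℕ) (L1 := ℕ) g hlt
      (hg2 (2 * k))]
    exact hD.mono k

end Pool.Agent.H40.ALV
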